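import Pool.Agent.Work.MP_db9399_vt.Tools
import Pool.Agent.Work.MP_db9399_exp_helper99.SPV

/-!
# MP_db9399, phase 2 (short spots), block SPVE (helper54, from SPV of helper99)

Locally sparse graphs, vertices with slack, many different colours on every chunk.
-/

set_option autoImplicit false

namespace Pool.Agent.Work.MP_db9399_vt_helper54

open Finset Classical
open Pool.Agent.Work.MP_db9399_vt
open Pool.Agent.Work.MP_db9399_all (nb mis PSt av Stmt_CNT)
open Pool.Agent.Work.MP_db9399_exp.helper99.SPV (mem_nb Mb Lx mem_Mb Lx_card X1 X1_card mem_X1_of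
  KF near av_card q3_of save)

universe u

namespace SPVE

theorem log_sq (ε : ℝ) (hε : 0 < ε) : ∃ D : ℕ, ∀ Δ : ℕ, D ≤ Δ → Real.log Δ ^ 2 ≤ ε * Δ := by
  have h := (Real.isLittleO_pow_log_id_atTop (n := 2)).bound hε
  have h2 := tendsto_natCast_atTop_atTop.eventually h
  obtain ⟨D, hD⟩ := Filter.eventually_atTop.1 h2
  refine ⟨D, fun Δ hΔ => ?_⟩
  have h3 := hD Δ hΔ
  simp only [id, Real.norm_natCast] at h3
  exact (le_abs_self _).trans h3

section defs
variable {V : Type u} [Fintype V]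

/-- greedy colouring of the vertices with slack -/
theorem greedy (G : SimpleGraph V) (L : V → Finset ℕ) (f : V → ℕ) (U : Finset V) :
    (∀ x ∈ U, (nb G x).card < (L x).card) → ∃ f' : V → ℕ, (∀ x, x ∉ U → f' x = f x) ∧
      (∀ x ∈ U, f' x ∈ L x) ∧ ∀ x ∈ U, ∀ y, G.Adj x y → f' x ≠ f' y := by
  induction U using Finset.induction_on with
  | empty => intro _; exact ⟨f, fun _ _ => rfl, by simp, by simp⟩
  | insert a S ha ih =>
    intro hL
    obtain ⟨f', h1, h2, h3⟩ := ih fun x hx => hL x (mem_insert_of_mem hx)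
    have hne : (L a \ (nb G a).image f').Nonempty := by
      rw [← card_pos]
      have h4 := le_card_sdiff ((nb G a).image f') (L a)
      have h5 := card_image_le (s := nb G a) (f := f')
      have h6 := hL a (mem_insert_self _ _)
      omega
    obtain ⟨z, hz⟩ := hne
    rw [mem_sdiff] at hz
    refine ⟨Function.update f' a z, ?_, ?_, ?_⟩
    · intro x hx
      have hxa : x ≠ a := fun h => hx (h ▸ mem_insert_self _ _)
      rw [Function.update_of_ne hxa]
      exact h1 x fun h => hx (mem_insert_of_mem h)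
    · intro x hx
      by_cases hxa : x = a
      · subst hxa
        rw [Function.update_self]
        exact hz.1
      · rw [Function.update_of_ne hxa]
        exact h2 x ((mem_insert.1 hx).resolve_left hxa)
    · intro x hx y hxy
      by_cases hxa : x = a
      · subst hxa
        rw [Function.update_self, Function.update_of_ne (G.ne_of_adj hxy).symm]
        intro h
        exact hz.2 (mem_image.2 ⟨y, mem_nb.2 hxy, h.symm⟩)
      · rw [Function.update_of_ne hxa]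
        by_cases hya : y = a
        · subst hya
          rw [Function.update_self]
          intro h
          exact hz.2 (mem_image.2 ⟨x, mem_nb.2 hxy.symm, h⟩)
        · rw [Function.update_of_ne hya]
          exact h3 x ((mem_insert.1 hx).resolve_left hxa) y hxy

theorem arith4 {Δ : ℕ} (hΔ : 3 ≤ Δ) : (Δ + Δ * Δ) * Δ + Δ ^ 3 + Δ ≤ Δ ^ 4 := by
  have h4 : 3 * Δ ^ 3 ≤ Δ ^ 4 := by
    calc 3 * Δ ^ 3 ≤ Δ * Δ ^ 3 := Nat.mul_le_mul_right _ hΔ
      _ = Δ ^ 4 := by ring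
  have h5 : 3 * Δ ^ 2 ≤ Δ ^ 3 := by
    calc 3 * Δ ^ 2 ≤ Δ * Δ ^ 2 := Nat.mul_le_mul_right _ hΔ
      _ = Δ ^ 3 := by ring
  have h6 : 3 * Δ ≤ Δ ^ 2 := by
    calc 3 * Δ ≤ Δ * Δ := Nat.mul_le_mul_right _ hΔ
      _ = Δ ^ 2 := by ring
  have h3 : (Δ + Δ * Δ) * Δ + Δ ^ 3 + Δ = 2 * Δ ^ 3 + Δ ^ 2 + Δ := by ring
  rw [h3]
  nlinarith

/-- demands of the first round: pairs `x`, `b` with `x` in `A` -/
abbrev Dp (G : SimpleGraph V) (Δ : ℕ) (θ : ℝ) (A : Finset V) : Type u :=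
  {d : V × V // d.1 ∈ A ∧ d.2 ∈ Lx G Δ θ d.1}

/-- killer sets of the first round -/
noncomputable def Kl1 {I : Type u} (G : SimpleGraph V) (Δ : ℕ) (θ : ℝ) (A : Finset V)
    (Ch : I → Finset V) : Dp G Δ θ A ⊕ I → V → Finset V :=
  Sum.elim (fun d => KF G d.1) (fun i y => nb G y ∪ (Ch i \ {y}))

/-- demand sets of the first round -/
noncomputable def Ma1 {I : Type u} (G : SimpleGraph V) (Δ : ℕ) (θ : ℝ) (A : Finset V)
    (Ch : I → Finset V) : Dp G Δ θ A ⊕ I → Finset V :=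
  Sum.elim (fun d => Mb G d.1.1 d.1.2) Ch

/-- colour sets of the first round -/
noncomputable def B1 {I : Type u} (G : SimpleGraph V) (Δ N : ℕ) (θ : ℝ) (A : Finset V)
    (F : V → Finset ℕ) : Dp G Δ θ A ⊕ I → V → Finset ℕ :=
  Sum.elim (fun d y => av G N F (fun _ => 0) univ y ∩ av G N F (fun _ => 0) univ d.1.2)
    (fun _ y => av G N F (fun _ => 0) univ y)

/-- every vertex is in at most `Δ ^ 4` demands -/
theorem demand_count {I : Type u} [Fintype I] {G : SimpleGraph V} {Δ : ℕ} {θ : ℝ}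
    {A : Finset V} {Ch : I → Finset V} (hΔ : 3 ≤ Δ)
    (hdeg : ∀ v, (nb G v).card ≤ Δ) (hCh : Chk G Δ Ch) (w : V) :
    (univ.filter (fun d : Dp G Δ θ A ⊕ I =>
      w ∈ Ma1 G Δ θ A Ch d ∨ ∃ y ∈ Ma1 G Δ θ A Ch d, w ∈ Kl1 G Δ θ A Ch d y)).card +
    (univ.filter (fun x : {x : V // x ∈ A} => w ∈ Lx G Δ θ x.1)).card ≤ Δ ^ 4 := by
  have h1 : (univ.filter (fun d : Dp G Δ θ A =>
      w ∈ Mb G d.1.1 d.1.2 ∨ ∃ y ∈ Mb G d.1.1 d.1.2, w ∈ KF G d.1 y)).card ≤
      (Δ + Δ * Δ) * Δ := by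
    have hinj : Function.Injective (fun d : Dp G Δ θ A => d.1) := Subtype.val_injective
    rw [← card_image_of_injective _ hinj]
    have hsub : (univ.filter (fun d : Dp G Δ θ A =>
        w ∈ Mb G d.1.1 d.1.2 ∨ ∃ y ∈ Mb G d.1.1 d.1.2, w ∈ KF G d.1 y)).image
          (fun d => d.1) ⊆ (X1 G w).biUnion (fun x => (nb G x).image (fun b => (x, b))) := by
      intro d hd
      obtain ⟨⟨d', hP⟩, hd', rfl⟩ := mem_image.1 hd
      rw [mem_filter] at hd'
      obtain ⟨hn1, hn2⟩ := near hP.2 hd'.2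
      exact mem_biUnion.2 ⟨d'.1, hn1, mem_image.2 ⟨d'.2, hn2, rfl⟩⟩
    refine (card_le_card hsub).trans (card_biUnion_le.trans ?_)
    refine (sum_le_card_nsmul _ _ Δ fun x _ => card_image_le.trans (hdeg x)).trans ?_
    rw [smul_eq_mul]
    exact Nat.mul_le_mul_right _ (X1_card hdeg w)
  have h2 : (univ.filter (fun x : {x : V // x ∈ A} => w ∈ Lx G Δ θ x.1)).card ≤ Δ := by
    have hinj : Function.Injective (fun x : {x : V // x ∈ A} => x.1) := Subtype.val_injective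
    rw [← card_image_of_injective _ hinj]
    refine (card_le_card ?_).trans (hdeg w)
    intro x hx
    obtain ⟨x', hx', rfl⟩ := mem_image.1 hx
    rw [mem_filter] at hx'
    exact mem_nb.2 (mem_nb.1 (mem_filter.1 hx'.2).1).symm
  have h3 : (univ.filter (fun i : I => w ∈ Ch i ∨ ∃ y ∈ Ch i, w ∈ nb G y ∪ (Ch i \ {y}))).card ≤
      Δ ^ 3 := by
    refine (card_le_card ?_).trans (hCh.num w)
    intro i hi
    rw [mem_filter] at hi ⊢
    refine ⟨mem_univ _, ?_⟩
    rcases hi.2 with h | ⟨y, hy, h⟩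
    · exact Or.inl h
    · rw [mem_union] at h
      rcases h with h | h
      · exact Or.inr ⟨y, hy, (mem_nb.1 h).symm⟩
      · exact Or.inl (mem_sdiff.1 h).1
  have h4 : (univ.filter (fun d : Dp G Δ θ A ⊕ I =>
      w ∈ Ma1 G Δ θ A Ch d ∨ ∃ y ∈ Ma1 G Δ θ A Ch d, w ∈ Kl1 G Δ θ A Ch d y)).card ≤
      (univ.filter (fun d : Dp G Δ θ A =>
        w ∈ Mb G d.1.1 d.1.2 ∨ ∃ y ∈ Mb G d.1.1 d.1.2, w ∈ KF G d.1 y)).card +
      (univ.filter (fun i : I => w ∈ Ch i ∨ ∃ y ∈ Ch i, w ∈ nb G y ∪ (Ch i \ {y}))).card := by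
    have hsub : univ.filter (fun d : Dp G Δ θ A ⊕ I =>
        w ∈ Ma1 G Δ θ A Ch d ∨ ∃ y ∈ Ma1 G Δ θ A Ch d, w ∈ Kl1 G Δ θ A Ch d y) ⊆
        (univ.filter (fun d : Dp G Δ θ A =>
          w ∈ Mb G d.1.1 d.1.2 ∨ ∃ y ∈ Mb G d.1.1 d.1.2, w ∈ KF G d.1 y)).image Sum.inl ∪
        (univ.filter (fun i : I =>
          w ∈ Ch i ∨ ∃ y ∈ Ch i, w ∈ nb G y ∪ (Ch i \ {y}))).image Sum.inr := by
      intro d hd
      rw [mem_union]
      rcases d with d | i
      · exact Or.inl (mem_image.2 ⟨d, mem_filter.2 ⟨mem_univ _, (mem_filter.1 hd).2⟩, rfl⟩)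
      · exact Or.inr (mem_image.2 ⟨i, mem_filter.2 ⟨mem_univ _, (mem_filter.1 hd).2⟩, rfl⟩)
    exact (card_le_card hsub).trans ((card_union_le _ _).trans
      (Nat.add_le_add card_image_le card_image_le))
  have h5 := arith4 hΔ
  omega

theorem demand_count2 {G : SimpleGraph V} {Δ : ℕ} (hΔ : 3 ≤ Δ) (hdeg : ∀ v, (nb G v).card ≤ Δ)
    (A : Finset V) (Ma : V → Finset V) (hMa : ∀ x, Ma x ⊆ nb G x) (U : Finset V) (w : V) :
    (univ.filter (fun x : {x : V // x ∈ A} =>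
      w ∈ Ma x.1 ∨ ∃ y ∈ Ma x.1, w ∈ nb G y ∩ U)).card +
    (univ.filter (fun _ : PEmpty.{u+1} => w ∈ (∅ : Finset V))).card ≤ Δ ^ 4 := by
  have h1 : (univ.filter (fun x : {x : V // x ∈ A} =>
      w ∈ Ma x.1 ∨ ∃ y ∈ Ma x.1, w ∈ nb G y ∩ U)).card ≤ Δ + Δ * Δ := by
    have hinj : Function.Injective (fun x : {x : V // x ∈ A} => x.1) := Subtype.val_injective
    rw [← card_image_of_injective _ hinj]
    refine (card_le_card ?_).trans (X1_card hdeg w)
    intro x hx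
    obtain ⟨x', hx', rfl⟩ := mem_image.1 hx
    rw [mem_filter] at hx'
    rcases hx'.2 with h | ⟨y, hy, hw⟩
    · unfold X1
      rw [mem_union]
      exact Or.inl (mem_nb.2 (mem_nb.1 (hMa x'.1 h)).symm)
    · exact mem_X1_of (mem_nb.1 (mem_inter.1 hw).1) (mem_nb.1 (hMa x'.1 hy))
  have h2 : (univ.filter (fun _ : PEmpty.{u+1} => w ∈ (∅ : Finset V))).card = 0 := by
    simp
  rw [h2, Nat.add_zero]
  refine h1.trans (le_trans ?_ (arith4 hΔ))
  nlinarith [Nat.zero_le (Δ * Δ), Nat.zero_le Δ, Nat.zero_le (Δ ^ 3)]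

end defs

/-- the statement for natural numbers as colours -/
theorem main (hSTEP : Stmt_STEPK.{u}) (hCNT : Stmt_CNT.{u}) :
    ∃ κ1 : ℝ, 0 < κ1 ∧ κ1 ≤ 1 ∧ ∀ θ : ℝ, 0 < θ → ∃ (κ : ℝ) (Δ0 : ℕ), 0 < κ ∧ κ ≤ 1 / 16 ∧
    ∀ {V : Type u} [Fintype V] (G : SimpleGraph V) (Δ N p : ℕ) (Fi : V → Finset ℕ)
      (I : Type u) [Fintype I] (Ch : I → Finset V), Δ0 ≤ Δ →
      (∀ v, (nb G v).card ≤ Δ) → Δ ≤ N → N ≤ 2 * Δ → p ≤ N → (N : ℝ) - p ≤ κ * Δ →
      (∀ v, 5 * (Fi v).card ≤ 2 * Δ) →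
      (∀ v, (θ * (Δ : ℝ) ^ 2 ≤ ((mis G (nb G v)).card : ℝ) ∧ ((Fi v).card : ℝ) ≤ κ * Δ) ∨
        (nb G v).card + (Fi v).card < p) →
      Chk G Δ Ch →
      ∃ c : V → ℕ, (∀ v, c v < p ∧ c v ∉ Fi v) ∧ (∀ v w, G.Adj v w → c v ≠ c w) ∧
        ∀ i, κ1 * ((Ch i).card : ℝ) ≤ (((Ch i).image c).card : ℝ) := by
  obtain ⟨κ1, Δ1, hκ1, hκ1', hstep1⟩ := hSTEP (1 / 8) (by norm_num) (by norm_num)
  refine ⟨κ1, hκ1, hκ1', fun θ hθ => ?_⟩
  set γ1 : ℝ := min (κ1 * (θ / 2)) 1 with hγ1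
  have hγ1pos : 0 < γ1 := lt_min (by positivity) one_pos
  have hγ1one : γ1 ≤ 1 := min_le_right _ _
  have hγ1le : γ1 ≤ κ1 * (θ / 2) := min_le_left _ _
  obtain ⟨κ2, Δ2, hκ2, hκ2', hstep2⟩ := hSTEP (γ1 / 2) (by positivity) (by linarith)
  set γ2 : ℝ := κ2 * γ1 with hγ2
  have hγ2pos : 0 < γ2 := by positivity
  obtain ⟨K, hcnt⟩ := hCNT (γ2 / 2) (by positivity)
  obtain ⟨Δ3, hΔ3⟩ := log_sq (min γ1 (θ / 2)) (lt_min hγ1pos (by positivity))
  refine ⟨min (γ2 / 8) (1 / 16), max (max Δ1 Δ2) (max Δ3 100), lt_min (by positivity)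
    (by norm_num), min_le_right _ _, ?_⟩
  intro V _ G Δ N p Fi I _ Ch hΔ hdeg hΔN hN2 hpN hNp hF5 hcase hCh
  have hd1 : Δ1 ≤ Δ := ((le_max_left _ _).trans (le_max_left _ _)).trans hΔ
  have hd2 : Δ2 ≤ Δ := ((le_max_right _ _).trans (le_max_left _ _)).trans hΔ
  have hd3 : Δ3 ≤ Δ := ((le_max_left _ _).trans (le_max_right _ _)).trans hΔ
  have hd4 : 100 ≤ Δ := ((le_max_right _ _).trans (le_max_right _ _)).trans hΔ
  have hΔR : (100 : ℝ) ≤ Δ := by exact_mod_cast hd4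
  have hΔNR : (Δ : ℝ) ≤ N := by exact_mod_cast hΔN
  have hN2R : (N : ℝ) ≤ 2 * Δ := by exact_mod_cast hN2
  have hlog := hΔ3 Δ hd3
  have hlog1 : Real.log Δ ^ 2 ≤ γ1 * Δ :=
    hlog.trans (mul_le_mul_of_nonneg_right (min_le_left _ _) (by linarith))
  have hlog2 : Real.log Δ ^ 2 ≤ θ / 2 * Δ :=
    hlog.trans (mul_le_mul_of_nonneg_right (min_le_right _ _) (by linarith))
  set κ : ℝ := min (γ2 / 8) (1 / 16) with hκ
  have hκa : κ * Δ ≤ γ2 / 8 * Δ := mul_le_mul_of_nonneg_right (min_le_left _ _) (by linarith)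
  have hκb : κ * Δ ≤ 1 / 16 * Δ := mul_le_mul_of_nonneg_right (min_le_right _ _) (by linarith)
  -- sparse vertices
  set A : Finset V := univ.filter (fun v => θ * (Δ : ℝ) ^ 2 ≤ ((mis G (nb G v)).card : ℝ) ∧
    ((Fi v).card : ℝ) ≤ κ * Δ) with hA
  have hB : ∀ v, v ∉ A → (nb G v).card + (Fi v).card < p := by
    intro v hv
    rcases hcase v with h | h
    · have h2 : v ∈ A := mem_filter.2 ⟨mem_univ v, h⟩
      exact absurd h2 hv
    · exact h
  -- forbidden colours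
  let F : V → Finset ℕ := fun v => Ico p N ∪ Fi v
  have hFc : ∀ v, ((F v).card : ℝ) ≤ κ * Δ + (Fi v).card := by
    intro v
    have h1 := card_union_le (Ico p N) (Fi v)
    rw [Nat.card_Ico] at h1
    have h2 : ((F v).card : ℝ) ≤ ((N - p : ℕ) : ℝ) + (Fi v).card := by exact_mod_cast h1
    rw [Nat.cast_sub hpN] at h2
    linarith
  have hFi5 : ∀ v, ((Fi v).card : ℝ) ≤ 2 / 5 * Δ := by
    intro v
    have : 5 * ((Fi v).card : ℝ) ≤ 2 * Δ := by exact_mod_cast hF5 v
    linarith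
  have hL : ∀ x ∈ A, θ / 2 * Δ ≤ ((Lx G Δ θ x).card : ℝ) := fun x hx =>
    Lx_card (by omega) hθ (hdeg x) (mem_filter.1 hx).2.1
  -- first round
  have hst0 : PSt G N F (fun _ => 0) (univ : Finset V) :=
    ⟨fun x hx => absurd (mem_univ x) hx, fun x hx => absurd (mem_univ x) hx,
      fun x y hx _ _ => absurd (mem_univ x) hx⟩
  have hav : ∀ v, av G N F (fun _ => 0) univ v = range N \ F v := by
    intro v
    unfold av
    have h0 : nb G v \ univ = (∅ : Finset V) := sdiff_eq_empty_iff_subset.2 (subset_univ _)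
    rw [h0, image_empty, sdiff_empty]
  have hav2 : ∀ v w, (1 / 8 : ℝ) * N ≤
      (((range N \ F v) ∩ (range N \ F w)).card : ℝ) := by
    intro v w
    have h1 : range N ⊆ ((range N \ F v) ∩ (range N \ F w)) ∪
        (Ico p N ∪ (Fi v ∪ Fi w)) := by
      intro a ha
      simp only [F, mem_union, mem_inter, mem_sdiff]
      tauto
    have h2 := card_le_card h1
    rw [card_range] at h2
    have h3 := card_union_le ((range N \ F v) ∩ (range N \ F w)) (Ico p N ∪ (Fi v ∪ Fi w))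
    have h4 := card_union_le (Ico p N) (Fi v ∪ Fi w)
    have h4' := card_union_le (Fi v) (Fi w)
    rw [Nat.card_Ico] at h4
    have h5 : (N : ℝ) ≤ (((range N \ F v) ∩ (range N \ F w)).card : ℝ) +
        ((N - p : ℕ) : ℝ) + (Fi v).card + (Fi w).card := by
      have : N ≤ ((range N \ F v) ∩ (range N \ F w)).card + (N - p) + (Fi v).card +
          (Fi w).card := by omega
      exact_mod_cast this
    rw [Nat.cast_sub hpN] at h5
    have h6 := hFi5 v
    have h7 := hFi5 w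
    linarith
  have hav1 : ∀ v, (1 / 8 : ℝ) * N ≤ ((range N \ F v).card : ℝ) := by
    intro v
    have := hav2 v v
    rwa [inter_self] at this
  obtain ⟨c1, U1, -, -, hst1, -, hact1, hidle1⟩ := hstep1 G Δ N (fun _ _ => 0) F (fun _ => 0)
    univ (Dp G Δ θ A ⊕ I) {x : V // x ∈ A} (Ma1 G Δ θ A Ch)
    (B1 G Δ N θ A F) (Kl1 G Δ θ A Ch) (fun x => Lx G Δ θ x.1) hd1 hΔN hN2 hdeg hst0
    (by
      rintro (⟨d, hd⟩ | i)
      · exact ⟨hlog2.trans (mem_filter.1 hd.2).2,
          (card_le_card (filter_subset _ _)).trans (hdeg _), subset_univ _⟩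
      · exact ⟨hCh.low i, hCh.upp i, subset_univ _⟩)
    (by
      rintro ⟨x, hx⟩
      exact ⟨hlog2.trans (hL x hx), (card_le_card (filter_subset _ _)).trans (hdeg _),
        subset_univ _⟩)
    (by
      rintro (⟨d, hd⟩ | i) y hy
      · refine ⟨inter_subset_left, ?_⟩
        show (1 / 8 : ℝ) * N ≤ ((av G N F (fun _ => 0) univ y ∩
          av G N F (fun _ => 0) univ d.2).card : ℝ)
        rw [hav, hav]
        exact hav2 y d.2
      · refine ⟨Subset.refl _, ?_⟩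
        show (1 / 8 : ℝ) * N ≤ ((av G N F (fun _ => 0) univ y).card : ℝ)
        rw [hav]
        exact hav1 y)
    (by
      rintro (⟨d, hd⟩ | i) y hy
      · have hy' := mem_Mb.1 hy
        show nb G y ∩ univ ⊆ KF G d y ∧ (KF G d y).card ≤ 3 * Δ ∧ y ∉ KF G d y
        unfold KF
        refine ⟨?_, ?_, ?_⟩
        · intro z hz
          rw [mem_union, mem_union]
          exact Or.inl (Or.inl (mem_inter.1 hz).1)
        · have h1 := card_union_le (nb G y ∪ nb G d.2) (Mb G d.1 d.2 \ {y})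
          have h2 := card_union_le (nb G y) (nb G d.2)
          have h3 : (Mb G d.1 d.2 \ {y}).card ≤ Δ :=
            (card_le_card (sdiff_subset.trans (filter_subset _ _))).trans (hdeg d.1)
          have h4 := hdeg y
          have h5 := hdeg d.2
          omega
        · rw [mem_union, mem_union, mem_nb, mem_nb, mem_sdiff, mem_singleton]
          rintro ((h | h) | h)
          · exact G.irrefl h
          · exact hy'.2.2 h.symm
          · exact h.2 rfl
      · show nb G y ∩ univ ⊆ nb G y ∪ (Ch i \ {y}) ∧ (nb G y ∪ (Ch i \ {y})).card ≤ 3 * Δ ∧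
          y ∉ nb G y ∪ (Ch i \ {y})
        refine ⟨inter_subset_left.trans subset_union_left, ?_, ?_⟩
        · have h1 := card_union_le (nb G y) (Ch i \ {y})
          have h2 : (Ch i \ {y}).card ≤ (Ch i).card := card_le_card sdiff_subset
          have h3 := hCh.upp i
          have h4 := hdeg y
          omega
        · rw [mem_union, mem_nb, mem_sdiff, mem_singleton]
          rintro (h | h)
          · exact G.irrefl h
          · exact h.2 rfl)
    (fun w => demand_count (by omega) hdeg hCh w)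
  -- the chunks
  have hchunk : ∀ i, ∃ Y ⊆ Ch i, (∀ y ∈ Y, y ∉ U1) ∧ Set.InjOn c1 (Y : Set V) ∧
      κ1 * ((Ch i).card : ℝ) ≤ (Y.card : ℝ) := by
    intro i
    refine ⟨_, filter_subset _ _, fun y hy => (mem_filter.1 hy).2.1, ?_, hact1 (Sum.inr i)⟩
    intro y hy y' hy' h
    by_contra hne
    rw [mem_coe] at hy hy'
    have h1 := (mem_filter.1 hy).2.2.2
    have h2 := mem_filter.1 hy'
    refine h1 y' ?_ (mem_univ _) h2.2.1 h.symm
    show y' ∈ nb G y ∪ (Ch i \ {y})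
    rw [mem_union, mem_sdiff, mem_singleton]
    exact Or.inr ⟨h2.1, fun h => hne h.symm⟩
  -- the demands of the second round
  let Ma : V → Finset V := fun x => (nb G x ∩ U1).filter (fun b =>
    γ1 * Δ ≤ ((av G N F c1 U1 b ∩ (nb G x \ U1).image c1).card : ℝ))
  have hMaU : ∀ x, Ma x ⊆ nb G x ∩ U1 := fun x => filter_subset _ _
  have hMac : ∀ x ∈ A, γ1 * Δ ≤ ((Ma x).card : ℝ) := by
    intro x hx
    have h1 := hidle1 ⟨x, hx⟩
    have hsub : Lx G Δ θ x ∩ U1 ⊆ Ma x := by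
      intro b hb
      rw [mem_inter] at hb
      have hb1 := mem_filter.1 hb.1
      refine mem_filter.2 ⟨mem_inter.2 ⟨hb1.1, hb.2⟩, ?_⟩
      refine q3_of (c := fun _ => 0) ?_
      refine le_trans ?_ (hact1 (Sum.inl ⟨(x, b), hx, hb.1⟩))
      have h2 : κ1 * (θ / 2 * Δ) ≤ κ1 * ((Mb G x b).card : ℝ) :=
        mul_le_mul_of_nonneg_left hb1.2 hκ1.le
      have h3 : γ1 * Δ ≤ κ1 * (θ / 2) * Δ := mul_le_mul_of_nonneg_right hγ1le (by linarith)
      show γ1 * Δ ≤ κ1 * ((Mb G x b).card : ℝ)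
      linarith
    have h2 : ((Lx G Δ θ x ∩ U1).card : ℝ) ≤ ((Ma x).card : ℝ) := by
      exact_mod_cast card_le_card hsub
    have h3 : κ1 * (θ / 2 * Δ) ≤ κ1 * ((Lx G Δ θ x).card : ℝ) :=
      mul_le_mul_of_nonneg_left (hL x hx) hκ1.le
    have h4 : γ1 * Δ ≤ κ1 * (θ / 2) * Δ := mul_le_mul_of_nonneg_right hγ1le (by linarith)
    linarith
  obtain ⟨c2, U2, hU2, hc2, hst2, -, hact2, -⟩ := hstep2 G Δ N (fun _ _ => 0) F c1 U1
    {x : V // x ∈ A} PEmpty.{u+1} (fun x => Ma x.1)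
    (fun x y => av G N F c1 U1 y ∩ (nb G x.1 \ U1).image c1)
    (fun _ y => nb G y ∩ U1) (fun _ => ∅) hd2 hΔN hN2 hdeg hst1
    (by
      rintro ⟨x, hx⟩
      refine ⟨hlog1.trans (hMac x hx), ?_, (hMaU x).trans inter_subset_right⟩
      exact (card_le_card ((hMaU x).trans inter_subset_left)).trans (hdeg x))
    (fun d => d.elim)
    (by
      rintro ⟨x, hx⟩ y hy
      refine ⟨inter_subset_left, le_trans ?_ (mem_filter.1 hy).2⟩
      nlinarith)
    (by
      rintro ⟨x, hx⟩ y _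
      refine ⟨Subset.refl _, ?_, ?_⟩
      · have h1 := card_le_card (inter_subset_left (s₁ := nb G y) (s₂ := U1))
        have h2 := hdeg y
        omega
      · rw [mem_inter, mem_nb]
        exact fun h => G.irrefl h.1)
    (fun w => demand_count2 (by omega) hdeg A Ma
      (fun x => (hMaU x).trans inter_subset_left) U1 w)
  -- counting
  obtain ⟨c3, h3L, h3p, -⟩ := hcnt G Δ (fun _ _ => 0) (U2 ∩ A) (fun x => av G N F c2 U2 x)
    (by omega) hdeg (by
      intro x hxUA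
      have hxA := (mem_inter.1 hxUA).2
      set Y := (Ma x).filter (fun y => y ∉ U2 ∧
        c2 y ∈ av G N F c1 U1 y ∩ (nb G x \ U1).image c1 ∧
        ∀ w ∈ nb G y ∩ U1, w ∈ U1 → w ∉ U2 → c2 w ≠ c2 y) with hY
      have h1 : κ2 * ((Ma x).card : ℝ) ≤ (Y.card : ℝ) := hact2 ⟨x, hxA⟩
      have h2 := save (G := G) (c := c1) (c' := c2) (U := U1) (U' := U2) (Y := Y) (x := x) hU2 hc2
        ((filter_subset _ _).trans (hMaU x)) (fun y hy => (mem_filter.1 hy).2.1)
        (fun y hy => (mem_inter.1 (mem_filter.1 hy).2.2.1).2)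
      have h3 : (((nb G x \ U2).image c2).card : ℝ) + Y.card + ((nb G x ∩ U2).card : ℝ) ≤ Δ := by
        exact_mod_cast h2.trans (hdeg x)
      have h4 := av_card (G := G) (N := N) (F := F) (c := c2) (U := U2) x
      have h5 : κ2 * (γ1 * Δ) ≤ κ2 * ((Ma x).card : ℝ) :=
        mul_le_mul_of_nonneg_left (hMac x hxA) hκ2.le
      have h6 := hFc x
      have h6' := (mem_filter.1 hxA).2.2
      have h7 : κ2 * (γ1 * (Δ : ℝ)) = γ2 * Δ := by rw [hγ2]; ring
      have h8 : ((nb G x ∩ (U2 ∩ A)).card : ℝ) ≤ ((nb G x ∩ U2).card : ℝ) := by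
        exact_mod_cast card_le_card (inter_subset_inter_left inter_subset_left)
      have h9 : 0 < γ2 * Δ := by positivity
      linarith)
  -- the colouring before the greedy step
  have key : ∀ v w, v ∈ U2 ∩ A → w ∉ U2 → G.Adj v w → c3 v ≠ c2 w := by
    intro v w hv hw hvw h
    have h1 := h3L v hv
    unfold av at h1
    rw [mem_sdiff] at h1
    exact h1.2 (mem_image.2 ⟨w, mem_sdiff.2 ⟨mem_nb.2 hvw, hw⟩, h.symm⟩)
  obtain ⟨c4, h4o, h4L, h4p⟩ := greedy G (fun x => range p \ Fi x)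
    (fun x => if x ∈ U2 then c3 x else c2 x) (U2 \ A) (by
      intro x hx
      have h1 := hB x (mem_sdiff.1 hx).2
      have h2 := le_card_sdiff (Fi x) (range p)
      rw [card_range] at h2
      omega)
  have hval : ∀ x, x ∉ U2 → c4 x = c2 x := by
    intro x hx
    rw [h4o x (fun h => hx (mem_sdiff.1 h).1), if_neg hx]
  have hval3 : ∀ x ∈ U2 ∩ A, c4 x = c3 x := by
    intro x hx
    rw [h4o x (fun h => (mem_sdiff.1 h).2 (mem_inter.1 hx).2), if_pos (mem_inter.1 hx).1]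
  have hF' : ∀ v a, a < N → a ∉ F v → a < p ∧ a ∉ Fi v := by
    intro v a h1 h2
    simp only [F, mem_union, mem_Ico, not_or, not_and, not_lt] at h2
    refine ⟨?_, h2.2⟩
    by_contra h3
    have := h2.1 (not_lt.1 h3)
    omega
  refine ⟨c4, ?_, ?_, ?_⟩
  · intro v
    by_cases hv : v ∈ U2
    · by_cases hvA : v ∈ A
      · rw [hval3 v (mem_inter.2 ⟨hv, hvA⟩)]
        have h := h3L v (mem_inter.2 ⟨hv, hvA⟩)
        unfold av at h
        rw [mem_sdiff, mem_sdiff, mem_range] at h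
        exact hF' v _ h.1.1 h.1.2
      · have h := h4L v (mem_sdiff.2 ⟨hv, hvA⟩)
        rw [mem_sdiff, mem_range] at h
        exact h
    · rw [hval v hv]
      exact hF' v _ (hst2.lt v hv) (hst2.fb v hv)
  · intro v w hvw
    by_cases hvB : v ∈ U2 \ A
    · exact h4p v hvB w hvw
    by_cases hwB : w ∈ U2 \ A
    · exact (h4p w hwB v hvw.symm).symm
    have hcv : v ∈ U2 → v ∈ U2 ∩ A := fun h => by
      by_contra h2
      exact hvB (mem_sdiff.2 ⟨h, fun h3 => h2 (mem_inter.2 ⟨h, h3⟩)⟩)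
    have hcw : w ∈ U2 → w ∈ U2 ∩ A := fun h => by
      by_contra h2
      exact hwB (mem_sdiff.2 ⟨h, fun h3 => h2 (mem_inter.2 ⟨h, h3⟩)⟩)
    by_cases hv : v ∈ U2 <;> by_cases hw : w ∈ U2
    · rw [hval3 v (hcv hv), hval3 w (hcw hw)]
      exact h3p v (hcv hv) w (hcw hw) hvw
    · rw [hval3 v (hcv hv), hval w hw]
      exact key v w (hcv hv) hw hvw
    · rw [hval v hv, hval3 w (hcw hw)]
      exact (key w v (hcw hw) hv hvw.symm).symm
    · rw [hval v hv, hval w hw]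
      exact hst2.pc v w hv hw hvw
  · intro i
    obtain ⟨Y, hY, hYU, hinj, hc⟩ := hchunk i
    refine hc.trans ?_
    have h1 : ∀ y ∈ Y, c4 y = c1 y := by
      intro y hy
      rw [hval y (fun h => hYU y hy (hU2 h)), hc2 y (hYU y hy)]
    have h2 : Y.card = (Y.image c4).card := by
      rw [card_image_of_injOn]
      intro a ha b hb hab
      have ha' := h1 a ha
      have hb' := h1 b hb
      exact hinj ha hb (by rw [← ha', ← hb']; exact hab)
    rw [h2]
    exact_mod_cast card_le_card (image_subset_image hY)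

end SPVE

theorem stmt_SPVE_of (hSTEP : Stmt_STEPK.{u}) (hCNT : Stmt_CNT.{u}) : Stmt_SPVE.{u} := by
  obtain ⟨κ1, hκ1, hκ1', hmain⟩ := SPVE.main hSTEP hCNT
  refine ⟨κ1, hκ1, hκ1', fun θ hθ => ?_⟩
  obtain ⟨κ, Δ0, hκ, hκ16, H⟩ := hmain θ hθ
  refine ⟨κ, Δ0, hκ, hκ16, ?_⟩
  intro V _ G Δ C P F I _ Ch hΔ hdeg hP hP2 hF hcase hCh
  set p := P.card with hp
  set N := max Δ p with hN
  have hpN : p ≤ N := le_max_right _ _
  have hNp : (N : ℝ) - p ≤ κ * Δ := by
    rcases le_total Δ p with h | h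
    · have : N = p := max_eq_right h
      rw [this, sub_self]
      positivity
    · have : N = Δ := max_eq_left h
      rw [this]
      linarith
  let e : P ≃ Fin p := Fintype.equivFinOfCardEq (by rw [Fintype.card_coe])
  let J : V → Finset ℕ := fun v => (univ.filter (fun q : P => q.1 ∈ F v)).image (fun q => (e q).1)
  have hJ : ∀ v, (J v).card ≤ (F v).card := by
    intro v
    refine card_image_le.trans ?_
    apply card_le_card_of_injOn (fun q : P => q.1)
    · intro q hq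
      exact (mem_filter.1 hq).2
    · intro a _ b _ h
      exact Subtype.ext h
  obtain ⟨c, hc1, hc2, hc3⟩ := H G Δ N p J I Ch hΔ hdeg (le_max_left _ _)
    (max_le (by omega) hP2) hpN hNp
    (fun v => (Nat.mul_le_mul_left 5 (hJ v)).trans (hF v))
    (by
      intro v
      rcases hcase v with ⟨h1, h2⟩ | h
      · left
        refine ⟨h1, le_trans ?_ h2⟩
        exact_mod_cast hJ v
      · right
        have := hJ v
        omega) hCh
  refine ⟨fun v => (e.symm ⟨c v, (hc1 v).1⟩).1, ?_, ?_, ?_⟩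
  · intro v
    refine ⟨(e.symm ⟨c v, (hc1 v).1⟩).2, ?_⟩
    intro h
    apply (hc1 v).2
    refine mem_image.2 ⟨e.symm ⟨c v, (hc1 v).1⟩, mem_filter.2 ⟨mem_univ _, h⟩, ?_⟩
    rw [e.apply_symm_apply]
  · intro v w hvw h
    apply hc2 v w hvw
    have h1 := e.symm.injective (Subtype.ext h)
    exact congrArg Fin.val h1
  · intro i
    refine (hc3 i).trans ?_
    have h1 : ((Ch i).image c).card ≤
        ((Ch i).image (fun v => (e.symm ⟨c v, (hc1 v).1⟩).1)).card := by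
      have h2 : (Ch i).image c = ((Ch i).image (fun v => (e.symm ⟨c v, (hc1 v).1⟩).1)).image
          (fun a => if ha : a ∈ P then (e ⟨a, ha⟩).1 else 0) := by
        rw [image_image]
        refine image_congr fun v _ => ?_
        simp only [Function.comp, coe_mem, dif_pos, Subtype.coe_eta, e.apply_symm_apply]
      rw [h2]
      exact card_image_le
    exact_mod_cast h1

theorem stmt_SPVE (hSTEP : Stmt_STEPK.{u}) : Stmt_SPVE.{u} :=
  stmt_SPVE_of hSTEP Pool.Agent.Work.MP_db9399_all.stmt_CNT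

end Pool.Agent.Work.MP_db9399_vt_helper54
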