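import Pool.Agent.Work.MP_db9399_vt.Interface

/-!
# MP_db9399, phase 2 (short spots), block CHK (helper54): sorted chunks exist
-/

set_option autoImplicit false

namespace Pool.Agent.Work.MP_db9399_vt_helper54

open Finset Classical
open Pool.Agent.Work.MP_db9399_vt

universe u

namespace CHK

variable {V : Type u}

/-- the `k` elements with the largest values -/
theorem top (It : Finset V) (e : V → ℕ) : ∀ k, k ≤ It.card →
    ∃ A ⊆ It, A.card = k ∧ ∀ v ∈ A, ∀ w ∈ It \ A, e w ≤ e v := by
  intro k
  induction k with
  | zero => intro _; exact ⟨∅, empty_subset _, rfl, by simp⟩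
  | succ k ih =>
    intro hk
    obtain ⟨A, hA, hc, hs⟩ := ih (by omega)
    have hne : (It \ A).Nonempty := by
      rw [← card_pos, card_sdiff_of_subset hA]
      omega
    obtain ⟨x, hx, hmax⟩ := exists_max_image (It \ A) e hne
    have hxA : x ∉ A := (mem_sdiff.1 hx).2
    refine ⟨insert x A, insert_subset (mem_sdiff.1 hx).1 hA, ?_, ?_⟩
    · rw [card_insert_of_notMem hxA, hc]
    · intro v hv w hw
      have hw' : w ∈ It \ A :=
        mem_sdiff.2 ⟨(mem_sdiff.1 hw).1, fun h => (mem_sdiff.1 hw).2 (mem_insert_of_mem h)⟩
      rcases mem_insert.1 hv with rfl | hv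
      · exact hmax w hw'
      · exact hs v hv w hw'

theorem main (e : V → ℕ) (K : ℕ) (hK : 0 < K) : ∀ (N : ℕ) (It : Finset V), It.card ≤ N →
    ∃ (n : ℕ) (Ch : Fin n → Finset V) (Lf : Finset V), Srt It e K n Ch Lf := by
  intro N
  induction N with
  | zero =>
    intro It hIt
    refine ⟨0, fun i => i.elim0, It, ?_⟩
    exact {
      sub := fun i => i.elim0
      car := fun i => i.elim0
      dis := fun i => i.elim0
      srt := fun i => i.elim0
      lf := Subset.refl _
      lfc := by omega
      lfd := fun i => i.elim0
      lfs := fun i => i.elim0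
      cov := fun v hv => Or.inl hv }
  | succ N ih =>
    intro It hIt
    by_cases hc : It.card < K
    · refine ⟨0, fun i => i.elim0, It, ?_⟩
      exact {
        sub := fun i => i.elim0
        car := fun i => i.elim0
        dis := fun i => i.elim0
        srt := fun i => i.elim0
        lf := Subset.refl _
        lfc := hc
        lfd := fun i => i.elim0
        lfs := fun i => i.elim0
        cov := fun v hv => Or.inl hv }
    · push Not at hc
      obtain ⟨A, hA, hAc, hAs⟩ := top It e K hc
      have hcard : (It \ A).card ≤ N := by
        rw [card_sdiff_of_subset hA]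
        omega
      obtain ⟨n, Ch, Lf, h⟩ := ih (It \ A) hcard
      refine ⟨n + 1, Fin.cons A Ch, Lf, ?_⟩
      have hdA : ∀ S : Finset V, S ⊆ It \ A → Disjoint A S := fun S hS =>
        disjoint_left.2 fun x hx hxS => (mem_sdiff.1 (hS hxS)).2 hx
      refine {
        sub := ?_, car := ?_, dis := ?_, srt := ?_, lf := ?_, lfc := h.lfc, lfd := ?_,
        lfs := ?_, cov := ?_ }
      · intro i
        refine Fin.cases ?_ (fun j => ?_) i
        · simpa using hA
        · simpa using (h.sub j).trans sdiff_subset
      · intro i
        refine Fin.cases ?_ (fun j => ?_) i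
        · simpa using hAc
        · simpa using h.car j
      · intro i j
        refine Fin.cases ?_ (fun i => ?_) i
        · refine Fin.cases ?_ (fun j => ?_) j
          · intro h; exact absurd rfl h
          · intro _; simpa using hdA _ (h.sub j)
        · refine Fin.cases ?_ (fun j => ?_) j
          · intro _; simpa using (hdA _ (h.sub i)).symm
          · intro hij
            have : i ≠ j := fun h => hij (by rw [h])
            simpa using h.dis i j this
      · intro i j
        refine Fin.cases ?_ (fun i => ?_) i
        · refine Fin.cases ?_ (fun j => ?_) j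
          · intro h; exact absurd h (lt_irrefl _)
          · intro _ v hv w hw
            rw [Fin.cons_zero] at hv
            rw [Fin.cons_succ] at hw
            exact hAs v hv w (h.sub j hw)
        · refine Fin.cases ?_ (fun j => ?_) j
          · intro h; exact absurd h (Fin.not_lt_zero _)
          · intro hij v hv w hw
            rw [Fin.cons_succ] at hv hw
            exact h.srt i j (Fin.succ_lt_succ_iff.1 hij) v hv w hw
      · exact h.lf.trans sdiff_subset
      · intro i
        refine Fin.cases ?_ (fun j => ?_) i
        · simpa using hdA _ h.lf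
        · simpa using h.lfd j
      · intro i
        refine Fin.cases ?_ (fun j => ?_) i
        · intro v hv w hw
          rw [Fin.cons_zero] at hv
          exact hAs v hv w (h.lf hw)
        · intro v hv w hw
          rw [Fin.cons_succ] at hv
          exact h.lfs j v hv w hw
      · intro v hv
        by_cases hvA : v ∈ A
        · exact Or.inr ⟨0, by rw [Fin.cons_zero]; exact hvA⟩
        · rcases h.cov v (mem_sdiff.2 ⟨hv, hvA⟩) with h1 | ⟨i, hi⟩
          · exact Or.inl h1
          · exact Or.inr ⟨i.succ, by rw [Fin.cons_succ]; exact hi⟩

end CHK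

theorem stmt_CHK : Stmt_CHK.{u} := by
  intro V It e K hK
  exact CHK.main e K hK It.card It le_rfl

end Pool.Agent.Work.MP_db9399_vt_helper54
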