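import Pool.Agent.Work.MP_db9399_vt.Interface

/-!
# MP_db9399, phase 2 (short spots), block COUNT (helper54): forbidden colours at one spot
-/

set_option autoImplicit false

namespace Pool.Agent.Work.MP_db9399_vt_helper54

open Finset Classical
open Pool.Agent.Work.MP_db9399_vt
open Pool.Agent.Work.MP_db9399_all (nb mis)

universe u

namespace COUNT

variable {V : Type u}

/-- the chunks and the rest as one sequence -/
noncomputable def A {n : ℕ} (Ch : Fin n → Finset V) (Lf : Finset V) (j : ℕ) : Finset V :=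
  if h : j < n then Ch ⟨j, h⟩ else if j = n then Lf else ∅

theorem A_lt {n : ℕ} (Ch : Fin n → Finset V) (Lf : Finset V) (j : ℕ) (h : j < n) :
    A Ch Lf j = Ch ⟨j, h⟩ := dif_pos h

theorem A_eq {n : ℕ} (Ch : Fin n → Finset V) (Lf : Finset V) : A Ch Lf n = Lf := by
  unfold A
  rw [dif_neg (lt_irrefl n), if_pos rfl]

section

variable {It : Finset V} {e : V → ℕ} {K n : ℕ} {Ch : Fin n → Finset V} {Lf : Finset V}

theorem A_card (h : Srt It e K n Ch Lf) (j : ℕ) : (A Ch Lf j).card ≤ K := by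
  by_cases hj : j < n
  · rw [A_lt _ _ _ hj, h.car]
  · unfold A
    rw [dif_neg hj]
    split
    · exact h.lfc.le
    · simp

theorem A_sub (h : Srt It e K n Ch Lf) (j : ℕ) : A Ch Lf j ⊆ It := by
  by_cases hj : j < n
  · rw [A_lt _ _ _ hj]
    exact h.sub _
  · unfold A
    rw [dif_neg hj]
    split
    · exact h.lf
    · exact empty_subset _

theorem A_dis (h : Srt It e K n Ch Lf) (i j : ℕ) (hij : i < j) (hj : j ≤ n) :
    Disjoint (A Ch Lf i) (A Ch Lf j) := by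
  have hi : i < n := lt_of_lt_of_le hij hj
  rw [A_lt _ _ _ hi]
  rcases lt_or_eq_of_le hj with hj | hj
  · rw [A_lt _ _ _ hj]
    exact h.dis _ _ (fun hh => by
      have := congrArg Fin.val hh
      simp only at this
      omega)
  · subst hj
    rw [A_eq]
    exact h.lfd _

theorem A_srt (h : Srt It e K n Ch Lf) (i : ℕ) (hi : i < n) (v w : V) (hv : v ∈ A Ch Lf i)
    (hw : w ∈ A Ch Lf (i + 1)) : e w ≤ e v := by
  rw [A_lt _ _ _ hi] at hv
  rcases Nat.lt_or_ge (i + 1) n with hj | hj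
  · rw [A_lt _ _ _ hj] at hw
    exact h.srt ⟨i, hi⟩ ⟨i + 1, hj⟩ (by simp [Fin.lt_def]) v hv w hw
  · have : i + 1 = n := by omega
    subst this
    rw [A_eq] at hw
    exact h.lfs _ v hv w hw

/-- sums over `It` -/
theorem sum_A (h : Srt It e K n Ch Lf) (g : V → ℝ) :
    ∑ w ∈ It, g w = ∑ j ∈ range (n + 1), ∑ w ∈ A Ch Lf j, g w := by
  have h1 : It = (range (n + 1)).biUnion (A Ch Lf) := by
    ext v
    rw [mem_biUnion]
    constructor
    · intro hv
      rcases h.cov v hv with h1 | ⟨i, hi⟩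
      · exact ⟨n, by simp, by rw [A_eq]; exact h1⟩
      · exact ⟨i, by simp [i.2.le], by rw [A_lt _ _ _ i.2]; exact hi⟩
    · rintro ⟨j, -, hj⟩
      exact A_sub h j hj
  have h2 : Set.PairwiseDisjoint (↑(range (n + 1)) : Set ℕ) (A Ch Lf) := by
    intro i hi j hj hij
    rw [mem_coe, mem_range] at hi hj
    rcases Nat.lt_or_gt_of_ne hij with h3 | h3
    · exact A_dis h i j h3 (by omega)
    · exact (A_dis h j i h3 (by omega)).symm
  conv_lhs => rw [h1]
  exact sum_biUnion h2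

/-- the weight of the elements with a colour outside `Fy` -/
theorem out_weight (h : Srt It e K n Ch Lf) (bad : V → Prop) [DecidablePred bad] (s thr : ℝ) (hs : 0 ≤ s)
    (hthr0 : 0 ≤ thr) (hthr : ∀ v ∈ It, (e v : ℝ) ≤ thr)
    (hbad : ∀ i : Fin n, s ≤ (((Ch i).filter bad).card : ℝ)) :
    s * (∑ w ∈ It, (e w : ℝ) - K * thr) ≤ K * ∑ w ∈ It.filter bad, (e w : ℝ) := by
  have hb0 : ∀ j, 0 ≤ ∑ w ∈ A Ch Lf j, (if bad w then (e w : ℝ) else 0) := fun j =>
    sum_nonneg fun w _ => by split <;> positivity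
  have hstep : ∀ j ∈ range n, s * ∑ w ∈ A Ch Lf (j + 1), (e w : ℝ) ≤
      K * ∑ w ∈ A Ch Lf j, (if bad w then (e w : ℝ) else 0) := by
    intro j hj
    rw [mem_range] at hj
    rw [← sum_filter]
    have h1 : s ≤ (((A Ch Lf j).filter bad).card : ℝ) := by
      rw [A_lt _ _ _ hj]
      exact hbad _
    have h2 : (((A Ch Lf j).filter bad).card : ℝ) * ∑ w ∈ A Ch Lf (j + 1), (e w : ℝ) ≤
        ((A Ch Lf (j + 1)).card : ℝ) * ∑ v ∈ (A Ch Lf j).filter bad, (e v : ℝ) := by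
      have h3 : ∑ v ∈ (A Ch Lf j).filter bad, ∑ w ∈ A Ch Lf (j + 1), (e w : ℝ) ≤
          ∑ v ∈ (A Ch Lf j).filter bad, ∑ w ∈ A Ch Lf (j + 1), (e v : ℝ) :=
        sum_le_sum fun v hv => sum_le_sum fun w hw => by
          exact_mod_cast A_srt h j hj v w (mem_filter.1 hv).1 hw
      simp only [sum_const, nsmul_eq_mul] at h3
      rw [← mul_sum] at h3
      exact h3
    have h4 : (0 : ℝ) ≤ ∑ w ∈ A Ch Lf (j + 1), (e w : ℝ) :=
      sum_nonneg fun w _ => Nat.cast_nonneg _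
    have h5 : (0 : ℝ) ≤ ∑ v ∈ (A Ch Lf j).filter bad, (e v : ℝ) :=
      sum_nonneg fun w _ => Nat.cast_nonneg _
    have h6 : ((A Ch Lf (j + 1)).card : ℝ) ≤ K := by exact_mod_cast A_card h (j + 1)
    calc s * ∑ w ∈ A Ch Lf (j + 1), (e w : ℝ)
        ≤ (((A Ch Lf j).filter bad).card : ℝ) * ∑ w ∈ A Ch Lf (j + 1), (e w : ℝ) :=
          mul_le_mul_of_nonneg_right h1 h4
      _ ≤ ((A Ch Lf (j + 1)).card : ℝ) * ∑ v ∈ (A Ch Lf j).filter bad, (e v : ℝ) := h2
      _ ≤ K * ∑ v ∈ (A Ch Lf j).filter bad, (e v : ℝ) := mul_le_mul_of_nonneg_right h6 h5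
  have h0 : ∑ w ∈ A Ch Lf 0, (e w : ℝ) ≤ K * thr := by
    calc ∑ w ∈ A Ch Lf 0, (e w : ℝ) ≤ ∑ w ∈ A Ch Lf 0, thr :=
          sum_le_sum fun w hw => hthr w (A_sub h 0 hw)
      _ = (A Ch Lf 0).card * thr := by rw [sum_const, nsmul_eq_mul]
      _ ≤ K * thr := mul_le_mul_of_nonneg_right (by exact_mod_cast A_card h 0) hthr0
  rw [sum_filter, sum_A h, sum_A h, sum_range_succ', sum_range_succ (fun j =>
    ∑ w ∈ A Ch Lf j, (if bad w then (e w : ℝ) else 0))]
  have h7 : s * ∑ j ∈ range n, ∑ w ∈ A Ch Lf (j + 1), (e w : ℝ) ≤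
      K * ∑ j ∈ range n, ∑ w ∈ A Ch Lf j, (if bad w then (e w : ℝ) else 0) := by
    rw [mul_sum, mul_sum]
    exact sum_le_sum hstep
  have h8 : 0 ≤ (K : ℝ) * ∑ w ∈ A Ch Lf n, (if bad w then (e w : ℝ) else 0) :=
    mul_nonneg (Nat.cast_nonneg _) (hb0 n)
  have h9 := mul_le_mul_of_nonneg_left h0 hs
  nlinarith

end

/-- arithmetic -/
theorem arith (κ1 ζ τ F K m d X wo tot : ℝ) (k0 : 0 < κ1) (k1 : κ1 ≤ 1) (z0 : 0 < ζ)
    (z1 : ζ ≤ 1) (hτ : 2000 ≤ κ1 * ζ * τ) (hd : 0 < d) (dY : d ≤ 2 * m) (hK : 0 < K)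
    (Ku : κ1 * K ≤ 16 * τ) (hF : 0 ≤ F) (hwo : 0 ≤ wo)
    (h1 : 6 * τ * (X - K * (κ1 * ζ / 1000 * d)) ≤ K * wo)
    (h2 : F * (ζ - κ1 * ζ / 40) * m - 2 * m ≤ X)
    (h3 : F * (1 - κ1 * ζ / 40) * m + wo ≤ tot) (h4 : tot ≤ τ * m) :
    F ≤ (1 - κ1 * ζ / 20) * τ := by
  have hm : 0 < m := by linarith
  have ha0 : 0 < κ1 * ζ := mul_pos k0 z0
  have ha1 : κ1 * ζ ≤ 1 := by nlinarith
  have hτ0 : 0 < τ := by
    by_contra hc
    push Not at hc
    nlinarith
  -- the outside weight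
  have h5 : 3 * κ1 / 8 * (X - K * (κ1 * ζ / 1000 * d)) ≤ wo := by
    rcases le_or_gt 0 (X - K * (κ1 * ζ / 1000 * d)) with h | h
    · have h6 : κ1 * K * (X - K * (κ1 * ζ / 1000 * d)) ≤
          16 * τ * (X - K * (κ1 * ζ / 1000 * d)) := mul_le_mul_of_nonneg_right Ku h
      have h7 : K * (3 * κ1 / 8 * (X - K * (κ1 * ζ / 1000 * d))) ≤ K * wo := by nlinarith
      exact le_of_mul_le_mul_left h7 hK
    · have : 3 * κ1 / 8 * (X - K * (κ1 * ζ / 1000 * d)) ≤ 0 :=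
        mul_nonpos_of_nonneg_of_nonpos (by positivity) h.le
      linarith
  have h6 : 3 * κ1 / 8 * (K * (κ1 * ζ / 1000 * d)) ≤ 12 / 1000 * (κ1 * ζ) * τ * m := by
    have h7 : κ1 * K * (κ1 * ζ / 1000 * d) ≤ 16 * τ * (κ1 * ζ / 1000 * (2 * m)) := by
      have h8 : κ1 * ζ / 1000 * d ≤ κ1 * ζ / 1000 * (2 * m) :=
        mul_le_mul_of_nonneg_left dY (by positivity)
      have h9 : 0 ≤ κ1 * ζ / 1000 * d := by positivity
      exact mul_le_mul Ku h8 h9 (by positivity)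
    nlinarith
  have h7 : 3 * κ1 / 8 * (F * (ζ - κ1 * ζ / 40) * m - 2 * m) ≤ 3 * κ1 / 8 * X :=
    mul_le_mul_of_nonneg_left h2 (by positivity)
  -- divide by `m`
  have h8 : (F * (1 - κ1 * ζ / 40) + 3 * κ1 / 8 * (F * (ζ - κ1 * ζ / 40) - 2) -
      12 / 1000 * (κ1 * ζ) * τ) * m ≤ τ * m := by nlinarith
  have h9 : F * (1 - κ1 * ζ / 40) + 3 * κ1 / 8 * (F * (ζ - κ1 * ζ / 40) - 2) -
      12 / 1000 * (κ1 * ζ) * τ ≤ τ := le_of_mul_le_mul_right h8 hm
  -- `a = κ1 ζ`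
  have h10 : 3 * κ1 / 8 * (F * (ζ - κ1 * ζ / 40)) ≥ F * (κ1 * ζ) * (117 / 320) := by
    have : 0 ≤ F * (κ1 * ζ) * (1 - κ1) := mul_nonneg (mul_nonneg hF ha0.le) (by linarith)
    nlinarith
  have h11 : F * (1 + 109 / 320 * (κ1 * ζ)) ≤ τ * (1 + 13 / 1000 * (κ1 * ζ)) := by nlinarith
  by_contra hc
  push Not at hc
  set a := κ1 * ζ with ha
  have h12 : (1 - a / 20) * τ * (1 + 109 / 320 * a) < F * (1 + 109 / 320 * a) :=
    mul_lt_mul_of_pos_right hc (by positivity)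
  have h13 : τ * (1 + 13 / 1000 * a) ≤ (1 - a / 20) * τ * (1 + 109 / 320 * a) := by
    have : 0 ≤ τ * a * (1 - a) := by
      have : 0 ≤ 1 - a := by linarith
      positivity
    nlinarith [mul_pos hτ0 ha0]
  linarith

section main

variable {C : Type}

/-- sums over the fibres of the colours -/
theorem fibres (c : V → C) (S : Finset V) (g : V → ℝ) (Fy : Finset C) :
    ∑ b ∈ Fy, ∑ w ∈ S.filter (fun w => c w = b), g w =
      ∑ w ∈ S.filter (fun w => c w ∈ Fy), g w := by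
  rw [← sum_fiberwise_of_maps_to (s := S.filter (fun w => c w ∈ Fy)) (t := Fy) (g := c)
    (fun w hw => (mem_filter.1 hw).2)]
  refine sum_congr rfl fun b hb => ?_
  refine sum_congr ?_ fun _ _ => rfl
  ext w
  simp only [mem_filter]
  constructor
  · rintro ⟨h1, h2⟩
    exact ⟨⟨h1, by rw [h2]; exact hb⟩, h2⟩
  · rintro ⟨⟨h1, -⟩, h2⟩
    exact ⟨h1, h2⟩

variable [Fintype V] {κ1 ζ τ : ℝ} {G : SimpleGraph V} {d K n : ℕ}
  {Y W UH : Finset V} {c : V → C} {Ch : Fin n → Finset V} {Lf : Finset V} {Fy : Finset C}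

/-- the weight of a colour which is forbidden at almost all vertices -/
theorem colour_weight (b : C) :
    ((Y.filter (fun s => ∃ w ∈ W, G.Adj s w ∧ c w = b)).card : ℝ) ≤
      ∑ w ∈ W.filter (fun w => c w = b), ((nb G w ∩ Y).card : ℝ) := by
  have h1 : Y.filter (fun s => ∃ w ∈ W, G.Adj s w ∧ c w = b) ⊆
      (W.filter (fun w => c w = b)).biUnion (fun w => nb G w ∩ Y) := by
    intro s hs
    obtain ⟨hsY, w, hw, hsw, hcw⟩ := mem_filter.1 hs
    refine mem_biUnion.2 ⟨w, mem_filter.2 ⟨hw, hcw⟩, mem_inter.2 ⟨?_, hsY⟩⟩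
    simp only [nb, mem_filter, mem_univ, true_and]
    exact hsw.symm
  have h2 := (card_le_card h1).trans card_biUnion_le
  calc ((Y.filter (fun s => ∃ w ∈ W, G.Adj s w ∧ c w = b)).card : ℝ)
      ≤ ((∑ w ∈ W.filter (fun w => c w = b), (nb G w ∩ Y).card : ℕ) : ℝ) := by exact_mod_cast h2
    _ = _ := by push_cast; rfl

theorem main (h : CNH κ1 ζ τ G d K n Y W UH c Ch Lf Fy) (hd : 0 < d) :
    (Fy.card : ℝ) ≤ (1 - κ1 * ζ / 20) * τ := by
  have k0 := h.k0
  have k1 := h.k1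
  have z0 := h.z0
  have z1 := h.z1
  have hτ := h.τ0
  have ha0 : 0 < κ1 * ζ := mul_pos k0 z0
  have ha1 : κ1 * ζ ≤ 1 := by nlinarith
  have hτ0 : 0 < τ := by
    by_contra hc
    push Not at hc
    nlinarith
  have hd' : (0 : ℝ) < d := by exact_mod_cast hd
  have dY : (d : ℝ) ≤ 2 * (Y.card : ℝ) := by exact_mod_cast h.dY
  have hm : (0 : ℝ) < Y.card := by linarith
  have hK : (0 : ℝ) < K := by
    by_contra hc
    push Not at hc
    have := h.Kl
    nlinarith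
  set m : ℝ := (Y.card : ℝ) with hmdef
  set thr : ℝ := κ1 * ζ / 1000 * d with hthr
  set Sm := W.filter (fun w => w ∉ UH ∧ 0 < (nb G w ∩ Y).card ∧
    ((nb G w ∩ Y).card : ℝ) < κ1 * ζ / 1000 * d) with hSm
  -- weight of the forbidden colours
  have hB : (Fy.card : ℝ) * (1 - κ1 * ζ / 40) * m ≤
      ∑ w ∈ W.filter (fun w => c w ∈ Fy), ((nb G w ∩ Y).card : ℝ) := by
    rw [← fibres c W (fun w => ((nb G w ∩ Y).card : ℝ)) Fy]
    calc (Fy.card : ℝ) * (1 - κ1 * ζ / 40) * m = ∑ b ∈ Fy, (1 - κ1 * ζ / 40) * m := by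
          rw [sum_const, nsmul_eq_mul, mul_assoc]
      _ ≤ _ := sum_le_sum fun b hb => (h.Fy b hb).trans (colour_weight b)
  have hsplit : ∑ w ∈ W, ((nb G w ∩ Y).card : ℝ) =
      ∑ w ∈ W.filter (fun w => c w ∈ Fy), ((nb G w ∩ Y).card : ℝ) +
        ∑ w ∈ W.filter (fun w => ¬ c w ∈ Fy), ((nb G w ∩ Y).card : ℝ) :=
    (sum_filter_add_sum_filter_not W _ _).symm
  have hwo : ∑ w ∈ Sm.filter (fun w => ¬ c w ∈ Fy), ((nb G w ∩ Y).card : ℝ) ≤
      ∑ w ∈ W.filter (fun w => ¬ c w ∈ Fy), ((nb G w ∩ Y).card : ℝ) := by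
    refine sum_le_sum_of_subset_of_nonneg ?_ fun _ _ _ => Nat.cast_nonneg _
    intro w hw
    rw [mem_filter] at hw ⊢
    exact ⟨(mem_filter.1 hw.1).1, hw.2⟩
  have htot := h.wt
  -- `F ≤ 2 τ`
  have hF2 : (Fy.card : ℝ) ≤ 2 * τ := by
    have h1 : (Fy.card : ℝ) * (1 - κ1 * ζ / 40) * m ≤ τ * m := by
      have h2 : 0 ≤ ∑ w ∈ W.filter (fun w => ¬ c w ∈ Fy), ((nb G w ∩ Y).card : ℝ) :=
        sum_nonneg fun _ _ => Nat.cast_nonneg _
      linarith
    have h2 : (Fy.card : ℝ) * (1 - κ1 * ζ / 40) ≤ τ := le_of_mul_le_mul_right h1 hm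
    have h3 : (0 : ℝ) ≤ Fy.card := Nat.cast_nonneg _
    nlinarith
  -- chunks
  have hchunk : ∀ i : Fin n, 6 * τ ≤ (((Ch i).filter (fun w => ¬ c w ∈ Fy)).card : ℝ) := by
    intro i
    have h1 : (Ch i).image c ⊆ Fy ∪ ((Ch i).filter (fun w => ¬ c w ∈ Fy)).image c := by
      intro b hb
      obtain ⟨w, hw, rfl⟩ := mem_image.1 hb
      by_cases hc : c w ∈ Fy
      · exact mem_union_left _ hc
      · exact mem_union_right _ (mem_image.2 ⟨w, mem_filter.2 ⟨hw, hc⟩, rfl⟩)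
    have h2 := (card_le_card h1).trans (card_union_le _ _)
    have h3 := (Nat.add_le_add_left (card_image_le (s := (Ch i).filter (fun w => ¬ c w ∈ Fy))
      (f := c)) Fy.card)
    have h4 : (((Ch i).image c).card : ℝ) ≤
        Fy.card + ((Ch i).filter (fun w => ¬ c w ∈ Fy)).card := by
      exact_mod_cast h2.trans h3
    have h5 := h.dst i
    have h6 := h.Kl
    linarith
  have hout := out_weight h.srt (fun w => ¬ c w ∈ Fy) (6 * τ) thr (by positivity)
    (by positivity) (fun v hv => (mem_filter.1 hv).2.2.2.le) hchunk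
  -- small weight of the forbidden colours
  have hX : (Fy.card : ℝ) * (ζ - κ1 * ζ / 40) * m - 2 * m ≤
      ∑ w ∈ Sm, ((nb G w ∩ Y).card : ℝ) := by
    have h1 : ∀ b ∈ Fy, (ζ - κ1 * ζ / 40) * m ≤
        ∑ w ∈ Sm.filter (fun w => c w = b), ((nb G w ∩ Y).card : ℝ) +
          ∑ w ∈ (W ∩ UH).filter (fun w => c w = b), ((nb G w ∩ Y).card : ℝ) := by
      intro b hb
      have h2 := (h.Fy b hb).trans (colour_weight b)
      set Bg := W.filter (fun w => w ∉ UH ∧ κ1 * ζ / 1000 * d ≤ ((nb G w ∩ Y).card : ℝ) ∧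
        c w = b) with hBg
      have h3 : ∑ w ∈ W.filter (fun w => c w = b), ((nb G w ∩ Y).card : ℝ) ≤
          ∑ w ∈ Sm.filter (fun w => c w = b), ((nb G w ∩ Y).card : ℝ) +
          ∑ w ∈ (W ∩ UH).filter (fun w => c w = b), ((nb G w ∩ Y).card : ℝ) +
          ∑ w ∈ Bg, ((nb G w ∩ Y).card : ℝ) := by
        rw [sum_filter, sum_filter, hSm, sum_filter, sum_filter, hBg, sum_filter,
          ← filter_mem_eq_inter, sum_filter, ← sum_add_distrib, ← sum_add_distrib]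
        refine sum_le_sum fun w hw => ?_
        have he0 : (0 : ℝ) ≤ ((nb G w ∩ Y).card : ℝ) := Nat.cast_nonneg _
        by_cases hcb : c w = b
        · by_cases hU : w ∈ UH
          · simp [hcb, hU]
          · by_cases he : 0 < (nb G w ∩ Y).card
            · by_cases hbig : κ1 * ζ / 1000 * d ≤ ((nb G w ∩ Y).card : ℝ)
              · have : ¬ ((nb G w ∩ Y).card : ℝ) < κ1 * ζ / 1000 * d := not_lt.2 hbig
                simp [hcb, hU, hbig, this]
              · have : ((nb G w ∩ Y).card : ℝ) < κ1 * ζ / 1000 * d := not_le.1 hbig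
                simp only [hcb, hU, he, this, hbig, not_false_eq_true, and_self, if_true,
                  true_and, and_true, if_false]
                linarith
            · have he' : (nb G w ∩ Y).card = 0 := by omega
              simp only [he', Nat.cast_zero, ite_self]
              norm_num
        · simp [hcb]
      have h4 : ∑ w ∈ Bg, ((nb G w ∩ Y).card : ℝ) ≤ (1 - ζ) * m := by
        have h5 : Bg.card ≤ 1 := by
          rw [card_le_one]
          intro w hw w' hw'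
          rw [hBg, mem_filter] at hw hw'
          by_contra hne
          exact h.big w hw.1 w' hw'.1 hw.2.1 hw'.2.1 hne hw.2.2.1 hw'.2.2.1
            (hw.2.2.2.trans hw'.2.2.2.symm)
        have h6 : ∀ w ∈ Bg, ((nb G w ∩ Y).card : ℝ) ≤ (1 - ζ) * m := by
          intro w hw
          have h7 := h.hub w (mem_filter.1 hw).1
          have h8 : (Y \ nb G w).card + (nb G w ∩ Y).card = Y.card := by
            rw [inter_comm]
            exact card_sdiff_add_card_inter Y (nb G w)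
          have h9 : ((Y \ nb G w).card : ℝ) + (nb G w ∩ Y).card = m := by
            rw [hmdef]
            exact_mod_cast h8
          linarith
        calc ∑ w ∈ Bg, ((nb G w ∩ Y).card : ℝ) ≤ ∑ w ∈ Bg, (1 - ζ) * m := sum_le_sum h6
          _ = Bg.card * ((1 - ζ) * m) := by rw [sum_const, nsmul_eq_mul]
          _ ≤ 1 * ((1 - ζ) * m) := mul_le_mul_of_nonneg_right (by exact_mod_cast h5)
              (mul_nonneg (by linarith) hm.le)
          _ = (1 - ζ) * m := one_mul _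
      linarith
    have h2 := sum_le_sum h1
    rw [sum_const, nsmul_eq_mul, sum_add_distrib, fibres, fibres] at h2
    have h3 : ∑ w ∈ Sm.filter (fun w => c w ∈ Fy), ((nb G w ∩ Y).card : ℝ) ≤
        ∑ w ∈ Sm, ((nb G w ∩ Y).card : ℝ) :=
      sum_le_sum_of_subset_of_nonneg (filter_subset _ _) fun _ _ _ => Nat.cast_nonneg _
    have h4 : ∑ w ∈ (W ∩ UH).filter (fun w => c w ∈ Fy), ((nb G w ∩ Y).card : ℝ) ≤
        ∑ w ∈ W ∩ UH, ((nb G w ∩ Y).card : ℝ) :=
      sum_le_sum_of_subset_of_nonneg (filter_subset _ _) fun _ _ _ => Nat.cast_nonneg _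
    have h5 := h.uh
    linarith
  refine arith κ1 ζ τ Fy.card K m d (∑ w ∈ Sm, ((nb G w ∩ Y).card : ℝ))
    (∑ w ∈ Sm.filter (fun w => ¬ c w ∈ Fy), ((nb G w ∩ Y).card : ℝ))
    (∑ w ∈ W, ((nb G w ∩ Y).card : ℝ)) k0 k1 z0 z1 hτ hd' dY hK h.Ku (Nat.cast_nonneg _)
    (sum_nonneg fun _ _ => Nat.cast_nonneg _) hout hX ?_ htot
  linarith

end main

end COUNT

theorem stmt_COUNT : Stmt_COUNT.{u} := by
  intro V _ C κ1 ζ τ G d K n Y W UH c Ch Lf Fy h
  exact COUNT.main h h.dp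

end Pool.Agent.Work.MP_db9399_vt_helper54
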